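import Pool.Agent.Q20.ZG.Gal

/-!
# Zagier's conjecture on `ζ_F(n)`: the conjugates of one element for each infinite place of `k`

Let `n ≥ 4` and let `F/k` be a Galois extension of number fields. There are elements of `ker δ_n`
with a nonzero determinant of the values of the polylogarithm (as Zagier's conjecture for `ζ_F(n)`
asserts) iff there are such elements of the form `y_w = g_w(y_v)`, `v` the place of `k` below `w`,
with one element `y_v` of `ker δ_n` for each infinite place `v` of `k` and `g_w ∈ Gal(F/k)`.
For `k = ℚ` these are conjugates of one element. If Borel's theorem and the theorem of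
Beilinson-Deligne and de Jeu are assumed (`Known n`), then Zagier's conjecture for `ζ_F(n)` holds
iff it holds with elements of this form.
-/

set_option autoImplicit false

namespace Pool.Agent.Results.MP_f01982_nt.ConjugatesSuffice

open NumberField H39Gon Pool.Agent.Q20.ZG

theorem result (n : ℕ) (hn : 4 ≤ n) (k F : Type) [Field k] [NumberField k]
    [Field F] [NumberField F] [Algebra k F] [IsGalois k F] :
    (ZagierAt n F → Nonzero n F) ∧ (Nonzero n F ↔ NonzeroOrbits n k F) ∧
    (Known n → (ZagierAt n F ↔ Orbits n k F)) := by
  refine ⟨nonzero_of_zagier (by omega), nonzero_orbits k (by omega), fun hK => ?_⟩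
  obtain ⟨b, hb⟩ := hK F
  exact orbits_iff k (by omega) hb

end Pool.Agent.Results.MP_f01982_nt.ConjugatesSuffice
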