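import Pool.Agent.Q20.ZG.Pub

/-!
# Zagier's conjecture on `ζ_F(n)` for abelian extensions

Let `n ≥ 4`. `Nonzero n F` says that there are elements of `ker δ_n(F)` with a nonzero determinant
of the values of the polylogarithm.

0. Zagier's conjecture for `ζ_F(n)` implies `Nonzero n F`, and conversely if Borel's theorem and
   the theorem of Beilinson-Deligne and de Jeu are assumed (`Known n`).
1. If `F/k` is abelian, then `Nonzero n F` holds iff for each character `χ` of `Gal(F/k)` there are
   `α_u ∈ ker δ_n` with a nonzero determinant of the sums `∑_g χ(g) 𝓛_n(ι_v(g α_u))`, where `v` and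
   `u` run over the infinite places of `k` at which `χ` has the right parity.
2. `Nonzero n F` holds for all abelian extensions `F` of `k` iff this holds for the injective
   characters of all cyclic extensions of `k`.
3. Under `Known n` one injective character for each cyclic extension is enough.
4. For `k = ℚ` and under `Known n`: the conjecture for all abelian fields is equivalent to the
   existence of one element with one nonzero sum for one injective character in each cyclic field
   which is totally real (`n` odd) or totally complex (`n` even).
5. In prime power degree there is such an element iff the values of some element at some `σ` and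
   `σ ∘ g`, `g` of prime order, differ.
-/

set_option autoImplicit false

namespace Pool.Agent.Results.MP_f01982_nt.CyclicExtensionsDecide

open NumberField H39Gon Pool.Agent.Q20.ZG

theorem result (n : ℕ) (hn : 4 ≤ n) :
    (∀ (F : Type) [Field F] [NumberField F], ZagierAt n F → Nonzero n F) ∧
    (Known n → ∀ (F : Type) [Field F] [NumberField F], Nonzero n F → ZagierAt n F) ∧
    (∀ (k F : Type) [Field k] [NumberField k] [Field F] [NumberField F] [Algebra k F],
      IsAbel k F → ∀ ι : InfinitePlace k → (F →+* ℂ), Above ι →
        (Nonzero n F ↔ ∀ χ : (F ≃ₐ[k] F) →* ℂˣ, Crit n ι χ)) ∧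
    (∀ (k : Type) [Field k] [NumberField k], AbelNonzero n k ↔
      ∀ (E : Type) [Field E] [NumberField E] [Algebra k E], IsCyc k E → InjCrit n k E) ∧
    (Known n → ∀ (k : Type) [Field k] [NumberField k], AbelZagier n k ↔
      ∀ (E : Type) [Field E] [NumberField E] [Algebra k E], IsCyc k E → OneInjCrit n k E) ∧
    (Known n → (AbelZagier n ℚ ↔
      ∀ (E : Type) [Field E] [NumberField E], IsCyc ℚ E → Signature n E → OneElement n E)) ∧
    (∀ (p a : ℕ), p.Prime → ∀ (E : Type) [Field E] [NumberField E], IsCyc ℚ E →
      Module.finrank ℚ E = p ^ (a + 1) → (OneElement n E ↔ DiffElement n p E)) := by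
  have hn3 : 3 ≤ n := by omega
  refine ⟨?_, fun hK => ?_, ?_, ?_, fun hK => ?_, fun hK => pub_four hn3 hK, ?_⟩
  · intro F _ _ h
    exact nonzero_of_zagier (by omega) h
  · intro F _ _ h
    obtain ⟨b, hb⟩ := hK F
    exact zagier_of_nonzero hb h
  · intro k F _ _ _ _ _ h ι hι
    exact pub_one hn3 k F h ι hι
  · intro k _ _
    exact pub_two hn3 k
  · intro k _ _
    exact pub_three hn3 hK k
  · intro p a hp E _ _ h hd
    exact pub_five hp E h hd

end Pool.Agent.Results.MP_f01982_nt.CyclicExtensionsDecide
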