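import Pool.Agent.Q219.ZN.Min

/-!
# Zagier's determinants and the automorphisms of the field

Let `N(F)` be the statement that there are elements `y_i` in `ker δ_n(F)` such that the determinant of the
numbers `L_n(σ_j(y_i))` is not zero. Zagier's conjecture for the number field `F` implies `N(F)`, and `N(F)`
implies the conjecture for `F` by the theorem of Borel and the map of Beilinson and Deligne, and de Jeu.
Let `F` be a number field for which `N(F)` is false while it is true for all proper subfields of `F`. Then the
group `Aut(F)` acts on a nonzero finite-dimensional RATIONAL vector space in such a way that only the identity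
fixes a nonzero vector (so it is a Frobenius complement): its abelian subgroups are cyclic and it has at most
one involution. For odd `n` the field has at least two infinite places, and for some embedding complex
conjugation is not given by an automorphism `≠ 1`; for even `n` the field is not totally real. If `F` is a Galois
extension of the rational numbers, then `F` is totally real for odd `n` and a CM field for even `n`. So for
every class of number fields which is closed under subfields (all fields, all solvable fields, ...) the statement
`N` for the class is equivalent to `N` for these remaining fields of the class.
-/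

set_option autoImplicit false

namespace Pool.Agent.Results.MP_f01982_nt.GaloisReduction

open GonP NumberField Pool.Agent.Q219.ZG Pool.Agent.Q219.ZN

theorem result (n : ℕ) (hn : 3 ≤ n) :
    (∀ (F : Type) [Field F] [NumberField F], Zagier n F → Nonvanishing n F) ∧
    (∀ (F : Type) [Field F] [NumberField F],
      (∀ E : IntermediateField ℚ F, E ≠ ⊤ → Nonvanishing n E) → ¬ Nonvanishing n F → Remaining n F) ∧
    (∀ P : ∀ (F : Type) [Field F] [NumberField F], Prop,
      (∀ (F : Type) [Field F] [NumberField F], P F → ∀ E : IntermediateField ℚ F, P E) →
        ((∀ (F : Type) [Field F] [NumberField F], P F → Nonvanishing n F) ↔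
          ∀ (F : Type) [Field F] [NumberField F], P F → Remaining n F → Nonvanishing n F)) ∧
    (∀ T : KTheory, T.IsKnown n → ∀ (F : Type) [Field F] [NumberField F],
      Nonvanishing n F → Zagier n F) :=
  ⟨fun _ _ _ h => nonvanishing_of_zagier (by omega) h,
    fun _ _ _ h hF => remaining_of_not hn h hF,
    fun P hP => ⟨fun h F _ _ hF _ => h F hF, fun h => induct hn P hP h⟩,
    fun _ hT _ _ _ h => zagier_of_nonvanishing (hT.known' hn) h⟩

end Pool.Agent.Results.MP_f01982_nt.GaloisReduction
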