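import Pool.Agent.Q60.ZG.Radical
import Pool.Agent.Q60.ZG.Auts
import Pool.Agent.Q60.ZG.Orbit
import Pool.Agent.Q20.ZG.Zne

/-! Zagier's conjecture. `N(F)`: there are elements `y_i` in the kernel of `δ_n` over `F` whose determinant
`det (𝓛_n(σ_j(y_i)))` is not zero. Zagier's conjecture for `F` implies `N(F)`, and the two are equivalent by
the theorems of Borel and of Beilinson–Deligne and de Jeu. Here, without any assumption: `N(F)` follows
from `N(E)` for subfields `E` as soon as the real functions on the embeddings of `F`, of the parity in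
question, come from the fields `E`. Applications: noncyclic groups of automorphisms of order `p q`,
complex conjugations in odd weight, radical extensions, reduction of the case of all fields. -/

set_option autoImplicit false

namespace Pool.Agent.Results.MP_f01982_nt.SpannedBySubfields

open NumberField IntermediateField Pool.Agent.Q60.ZG

/-- `N(F)`: for some `y_i` in `ker δ_n ⊗ ℚ` the determinant of the matrix `(𝓛_n(σ_j(y_i)))` is not zero. -/
def Nonvanishing (n : ℕ) (F : Type) [Field F] [NumberField F] : Prop :=
  ∃ y : Idx n F → (F →+* ℂ) → ℝ, (∀ i, y i ∈ Values n F) ∧ reg n F y ≠ 0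

/-- Zagier's conjecture for `F` implies `N(F)`, and the converse follows from the theorems of Borel and
of Beilinson–Deligne and de Jeu for `F`. -/
def Link (n : ℕ) : Prop :=
  ∀ (F : Type) [Field F] [NumberField F], (Zagier n F → Nonvanishing n F) ∧
    (HasBorel n F → Nonvanishing n F → Zagier n F)

/-- `N(F)` if and only if the vectors of the values of `𝓛_n` on the kernel of `δ_n` span the space of the
real functions with the right parity on the embeddings of `F`. -/
def RealSpan (n : ℕ) : Prop :=
  ∀ (F : Type) [Field F] [NumberField F], Nonvanishing n F ↔ ∀ f : (F →+* ℂ) → ℝ, Parity n f →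
    f ∈ Submodule.span ℝ (Values n F : Set ((F →+* ℂ) → ℝ))

/-- `N(F)` if `F` is spanned by a set of subfields with this property. -/
def Criterion (n : ℕ) : Prop :=
  ∀ (F : Type) [Field F] [NumberField F] (S : Set (IntermediateField ℚ F)),
    Spanned n F S → (∀ E ∈ S, Nonvanishing n E) → Nonvanishing n F

/-- `N(F)` if `F` has a noncyclic group `A` of automorphisms whose order is a product of two primes, and
the fixed fields of the nontrivial subgroups of `A` have the property. -/
def FixedFields (n : ℕ) : Prop :=
  ∀ (F : Type) [Field F] [NumberField F] (A : Subgroup (F ≃ₐ[ℚ] F)), NoncyclicPQ A →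
    (∀ B ≤ A, B ≠ ⊥ → Nonvanishing n (fixedField B)) → Nonvanishing n F

/-- `c` is an automorphism, not the identity, which induces the complex conjugation on `σ(F)`. -/
def Conj {F : Type} [Field F] [NumberField F] (σ : F →+* ℂ) (c : F ≃ₐ[ℚ] F) : Prop :=
  c ≠ 1 ∧ ∀ x, (starRingEnd ℂ) (σ x) = σ (c x)

/-- `N(F)` if for every embedding of `F` the complex conjugation is induced by an automorphism which is
not the identity, and the fixed fields of all these automorphisms have the property. -/
def Conjugations (n : ℕ) : Prop :=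
  ∀ (F : Type) [Field F] [NumberField F], (∀ σ : F →+* ℂ, ∃ c : F ≃ₐ[ℚ] F, Conj σ c) →
    (∀ (σ : F →+* ℂ) (c : F ≃ₐ[ℚ] F), Conj σ c → Nonvanishing n (fixedField (Subgroup.zpowers c))) →
      Nonvanishing n F

/-- `N(F)` for `F = E(α_1, …, α_k)`, `α_i ^ N ∈ E`, if it holds for all `E(∏ α_i ^ m_i)`, `m_i < N`. -/
def RadicalExtensions (n : ℕ) : Prop :=
  ∀ (F : Type) [Field F] [NumberField F] (E : IntermediateField ℚ F) (N k : ℕ) (α : Fin k → F),
    0 < N → (∀ i, α i ≠ 0 ∧ α i ^ N ∈ E) → E ⊔ adjoin ℚ (Set.range α) = ⊤ →
    (∀ m : Fin k → ℕ, (∀ i, m i < N) → Nonvanishing n ↥(E ⊔ adjoin ℚ {∏ i, α i ^ m i})) →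
      Nonvanishing n F

/-- `N(F)` for all number fields if and only if it holds for those of degree at least `2` which are not
spanned by their proper subfields. -/
def Reduction (n : ℕ) : Prop :=
  (∀ (F : Type) [Field F] [NumberField F], Nonvanishing n F) ↔
    ∀ (F : Type) [Field F] [NumberField F], 1 < Module.finrank ℚ F → ¬ Spanned n F {E | E ≠ ⊤} →
      Nonvanishing n F

/-! ### parity -/

theorem part_conj (n : ℕ) (w : ℂ) : part n ((starRingEnd ℂ) w) = eps n * part n w := by
  unfold part eps
  split_ifs <;> simp

theorem series_conj (n : ℕ) (z : ℂ) : series n ((starRingEnd ℂ) z) = (starRingEnd ℂ) (series n z) := by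
  unfold series
  rw [map_sum]
  refine Finset.sum_congr rfl fun k _ => ?_
  rw [map_mul, map_mul, map_pow, Complex.conj_ofReal, Complex.conj_tsum, map_ratCast,
    Complex.norm_conj]
  congr 1
  refine tsum_congr fun j => ?_
  rw [map_div₀, map_pow, map_pow, map_add, map_natCast, map_one]

theorem polyL_conj (n : ℕ) (x : Option ℂ) : polyL n (x.map (starRingEnd ℂ)) = eps n * polyL n x := by
  rcases x with _ | z
  · simp [polyL]
  · simp only [Option.map_some, polyL, Complex.norm_conj]
    split_ifs with h
    · rw [series_conj, part_conj]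
    · rw [← map_inv₀, series_conj, part_conj]

theorem vec_parity (n : ℕ) (F : Type) [Field F] (α : Z1 F) : Parity n (vec n F α) := by
  intro σ
  induction α using Finsupp.induction_linear with
  | zero => simp
  | add f g hf hg => rw [map_add, Pi.add_apply, Pi.add_apply, hf, hg, mul_add]
  | single x m =>
    unfold vec
    rw [Finsupp.linearCombination_single, Pi.smul_apply, Pi.smul_apply]
    have h1 : x.map (ComplexEmbedding.conjugate σ) = (x.map σ).map (starRingEnd ℂ) := by
      rw [Option.map_map]
      rfl
    rw [h1, polyL_conj, mul_smul_comm]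

theorem values_parity (n : ℕ) (F : Type) [Field F] {g : (F →+* ℂ) → ℝ} (hg : g ∈ Values n F) :
    Parity n g := by
  have h1 : Values n F ≤ (par n F).restrictScalars ℚ := by
    rw [Values, Submodule.span_le]
    rintro _ ⟨α, _, rfl⟩
    exact vec_parity n F α
  exact h1 hg

/-! ### the criterion -/

theorem nonvanishing_iff (n : ℕ) (F : Type) [Field F] [NumberField F] :
    Nonvanishing n F ↔ ∀ f : (F →+* ℂ) → ℝ, Parity n f →
      f ∈ Submodule.span ℝ (Values n F : Set ((F →+* ℂ) → ℝ)) := by
  classical
  constructor
  · rintro ⟨y, hy, hy0⟩ f hf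
    refine Submodule.span_mono ?_ (mem_span hy0 (fun i => values_parity n F (hy i)) hf)
    rintro _ ⟨i, rfl⟩
    exact hy i
  · intro h
    have hrep : Represents n (fun v : Idx n F => v.1.embedding) id fun _ => (1 : F ≃ₐ[ℚ] F) := by
      intro v
      rw [act_one]
      exact InfinitePlace.mk_embedding v.1
    obtain ⟨y, hy, hy0⟩ := exists_rational (Values n F) (id : Idx n F → Idx n F)
      (fun (i j : Idx n F) => act j.1.embedding (1 : F ≃ₐ[ℚ] F)⁻¹)
      (fun k => base n k.1.embedding) (fun k => h _ (base_parity n k.1.embedding)) (base_reg hrep)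
    refine ⟨y, hy, ?_⟩
    unfold reg
    simpa only [inv_one, act_one, id] using hy0

theorem of_spanned {n : ℕ} (F : Type) [Field F] [NumberField F] {S : Set (IntermediateField ℚ F)}
    (hS : Spanned n F S) (h : ∀ E ∈ S, Nonvanishing n E) : Nonvanishing n F := by
  rw [nonvanishing_iff]
  intro f hf
  have h1 : Submodule.span ℝ (FromOne n S) ≤
      Submodule.span ℝ (Values n F : Set ((F →+* ℂ) → ℝ)) := by
    rw [Submodule.span_le]
    rintro _ ⟨E, hE, g, hg, rfl⟩
    exact span_values_pull n (algebraMap E F) ((nonvanishing_iff n E).1 (h E hE) g hg)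
  exact h1 (hS f hf)

/-! ### the field of rational numbers -/

theorem one_mem (n : ℕ) (F : Type) [Field F] : (Finsupp.single (some 1) 1 : Z1 F) ∈ kerDelta n F := by
  classical
  unfold kerDelta kerOf
  split_ifs
  · rw [LinearMap.mem_ker, Finsupp.linearCombination_single]
    simp [wedge]
  · rw [LinearMap.mem_ker, Finsupp.linearCombination_single]
    simp [tens]

theorem polyL_one {n : ℕ} (hn : 2 ≤ n) (hodd : Odd n) : 0 < polyL n (some 1) := by
  have h1 : series n 1 = ((∑' j : ℕ, 1 / ((j : ℝ) + 1) ^ n : ℝ) : ℂ) := by
    unfold series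
    rw [Finset.sum_eq_single 0]
    · simp [bernoulli_zero, Complex.ofReal_tsum]
    · intro k _ hk
      simp [zero_pow hk]
    · intro h
      exact absurd (Finset.mem_range.2 (by omega)) h
  have hs : Summable fun j : ℕ => 1 / ((j : ℝ) + 1) ^ n := by
    have h2 := (summable_nat_add_iff (f := fun j : ℕ => 1 / (j : ℝ) ^ n) 1).2
      (Real.summable_one_div_nat_pow.2 hn)
    simpa using h2
  have h3 : 0 < ∑' j : ℕ, 1 / ((j : ℝ) + 1) ^ n :=
    hs.tsum_pos (fun j => by positivity) 0 (by norm_num)
  simp only [polyL, norm_one, le_refl, if_true, h1, part, if_pos hodd, Complex.ofReal_re]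
  exact h3

theorem of_degree_one {n : ℕ} (hn : 2 ≤ n) (F : Type) [Field F] [NumberField F]
    (h : Module.finrank ℚ F = 1) : Nonvanishing n F := by
  classical
  have hcard : Fintype.card (F →+* ℂ) = 1 := by
    rw [NumberField.Embeddings.card, h]
  have hsub : Subsingleton (F →+* ℂ) := Fintype.card_le_one_iff_subsingleton.1 hcard.le
  rw [nonvanishing_iff]
  intro f hf
  obtain ⟨σ₀⟩ : Nonempty (F →+* ℂ) := Fintype.card_pos_iff.1 (by omega)
  by_cases hodd : Odd n
  · have h1 : vec n F (Finsupp.single (some 1) 1) ∈ Values n F :=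
      Submodule.subset_span ⟨_, one_mem n F, rfl⟩
    have h2 : ∀ σ, vec n F (Finsupp.single (some 1) 1) σ = polyL n (some 1) := by
      intro σ
      unfold vec
      rw [Finsupp.linearCombination_single, one_smul, Option.map_some, map_one]
    have h3 := polyL_one hn hodd
    have h4 : f = (f σ₀ / polyL n (some 1)) • vec n F (Finsupp.single (some 1) 1) := by
      funext σ
      rw [Pi.smul_apply, h2, smul_eq_mul, div_mul_cancel₀ _ h3.ne', Subsingleton.elim σ σ₀]
    rw [h4]
    exact Submodule.smul_mem _ _ (Submodule.subset_span h1)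
  · have h1 : f = 0 := by
      funext σ
      have h2 := hf σ
      rw [Subsingleton.elim (ComplexEmbedding.conjugate σ) σ] at h2
      unfold eps at h2
      rw [if_neg hodd] at h2
      rw [Pi.zero_apply]
      linarith
    rw [h1]
    exact Submodule.zero_mem _

theorem all_fields {n : ℕ} (hn : 2 ≤ n)
    (h : ∀ (F : Type) [Field F] [NumberField F], 1 < Module.finrank ℚ F →
      ¬ Spanned n F {E | E ≠ ⊤} → Nonvanishing n F) :
    ∀ (F : Type) [Field F] [NumberField F], Nonvanishing n F := by
  suffices H : ∀ (d : ℕ) (F : Type) [Field F] [NumberField F], Module.finrank ℚ F = d →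
      Nonvanishing n F from fun F _ _ => H _ F rfl
  intro d
  induction d using Nat.strong_induction_on with
  | _ d ih =>
    intro F _ _ hd
    by_cases hS : Spanned n F {E | E ≠ ⊤}
    · refine of_spanned F hS fun E hE => ?_
      have h1 : Module.finrank ℚ E < Module.finrank ℚ F := by
        have h2 := Submodule.finrank_lt (K := ℚ) (V := F) (s := Subalgebra.toSubmodule E.toSubalgebra)
          (by
            intro h3
            apply hE
            ext x
            refine ⟨fun _ => IntermediateField.mem_top, fun _ => ?_⟩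
            have h4 : x ∈ Subalgebra.toSubmodule E.toSubalgebra := by
              rw [h3]
              exact Submodule.mem_top
            exact h4)
        exact h2
      exact ih _ (hd ▸ h1) E rfl
    · by_cases h1 : 1 < Module.finrank ℚ F
      · exact h F h1 hS
      · exact of_degree_one hn F (by
          have := Module.finrank_pos (R := ℚ) (M := F)
          omega)

theorem of_zagier {n : ℕ} (hn : 2 ≤ n) (F : Type) [Field F] [NumberField F] (h : Zagier n F) :
    Nonvanishing n F := by
  obtain ⟨y, hy, q, _, hf⟩ := h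
  refine ⟨y, hy, fun h0 => ?_⟩
  rw [h0, mul_zero, Complex.ofReal_zero] at hf
  exact Pool.Agent.Q20.ZG.zeta_ne F hn hf

theorem result (n : ℕ) (hn : 2 ≤ n) :
    Link n ∧ RealSpan n ∧ Criterion n ∧ FixedFields n ∧ (Odd n → Conjugations n) ∧
      RadicalExtensions n ∧ Reduction n := by
  refine ⟨fun F _ _ => ⟨of_zagier hn F, fun hB h => (zagier_iff hB).2 ((nonvanishing_iff n F).1 h)⟩,
    fun F _ _ => nonvanishing_iff n F, fun F _ _ S hS h => of_spanned F hS h, ?_, ?_, ?_,
    fun h F _ _ _ _ => h F, fun h => all_fields hn h⟩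
  · intro F _ _ A hA h
    refine of_spanned F (spanned_pq n A hA) ?_
    rintro _ ⟨B, hBA, hB0, rfl⟩
    exact h B hBA hB0
  · intro hodd F _ _ hc h
    refine of_spanned F (spanned_conj hodd hc) ?_
    rintro _ ⟨σ, c, hc1, hc2, rfl⟩
    exact h σ c ⟨hc1, hc2⟩
  · intro F _ _ E N k α hN hα htop h
    refine of_spanned F (spanned_radical n E hN α hα htop) ?_
    rintro _ ⟨m, hm, rfl⟩
    exact h m hm

end Pool.Agent.Results.MP_f01982_nt.SpannedBySubfields
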